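import Pool.Agent.FairM.K4

/-! Fair matchings: the denominator `Δ + 2` fails for every `Δ ≥ 3`, and `2 Δ - 2` fails too. -/

set_option autoImplicit false

namespace Pool.Agent.Results.MP_9beb5c_co.TwiceDegree

open Pool.Agent.FairM

/-- **Main result.** `Copies n G` is the disjoint union of `n` copies of `G`; `IsM H M` says that
`M` is a matching of `H`; the classes of a partition of the edges are given by `c : Sym2 _ → ℕ`.

(1) For every `d ≥ 3` some disjoint union of complete graphs `K_(d+1)` (a `d`-regular graph) has a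
partition of its edges such that every matching contains less than `⌊|E_i| / (d + 2)⌋` edges of
some class `E_i`.

(2) Let `G` be any finite graph with two adjacent vertices of degree `d`. The disjoint union of
`2 d - 2` copies of `G` has a partition of its edges such that every matching misses a class with
exactly `2 d - 2` edges. -/
theorem result :
    (∀ d : ℕ, 3 ≤ d → ∃ (n : ℕ) (c : Sym2 (Fin n × Fin (d + 1)) → ℕ),
      (∀ x, ((Copies n (⊤ : SimpleGraph (Fin (d + 1)))).neighborSet x).ncard = d) ∧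
      ∀ M : Set (Sym2 (Fin n × Fin (d + 1))), IsM (Copies n ⊤) M →
        ∃ i : ℕ, {e ∈ M | c e = i}.ncard <
          {e ∈ (Copies n (⊤ : SimpleGraph (Fin (d + 1)))).edgeSet | c e = i}.ncard / (d + 2)) ∧
    (∀ (V : Type) [Finite V] (G : SimpleGraph V) (u v : V) (d : ℕ), G.Adj u v →
      (G.neighborSet u).ncard = d → (G.neighborSet v).ncard = d →
      ∃ c : Sym2 (Fin (2 * d - 2) × V) → ℕ,
        ∀ M : Set (Sym2 (Fin (2 * d - 2) × V)), IsM (Copies (2 * d - 2) G) M →
          ∃ i : ℕ, {e ∈ (Copies (2 * d - 2) G).edgeSet | c e = i}.ncard = 2 * d - 2 ∧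
            {e ∈ M | c e = i} = ∅) := by
  refine ⟨fun d hd => ?_, fun V _ G u v d huv hu hv => general G u v huv d hu hv⟩
  have hdeg : ∀ x : Fin (d + 1), ((⊤ : SimpleGraph (Fin (d + 1))).neighborSet x).ncard = d := by
    intro x
    have h1 : (⊤ : SimpleGraph (Fin (d + 1))).neighborSet x = {x}ᶜ := by
      ext y
      simp [eq_comm]
    rw [h1, Set.ncard_compl, Set.ncard_singleton, Nat.card_eq_fintype_card, Fintype.card_fin]
    omega
  have hreg : ∀ n, ∀ x, ((Copies n (⊤ : SimpleGraph (Fin (d + 1)))).neighborSet x).ncard = d := by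
    rintro n ⟨a, x⟩
    rw [copies_deg, hdeg]
  rcases Nat.eq_or_lt_of_le hd with h3 | h3
  · subst h3
    refine ⟨5, col, hreg 5, fun M hM => ?_⟩
    obtain ⟨i, h1, h2⟩ := three M hM
    refine ⟨i, ?_⟩
    rw [h2, Set.ncard_empty]
    exact Nat.div_pos h1 (by norm_num)
  · obtain ⟨c, hc⟩ := general (⊤ : SimpleGraph (Fin (d + 1))) 0 ⟨1, by omega⟩ (by
      intro hcon
      have := congrArg Fin.val hcon
      simp at this) d (hdeg _) (hdeg _)
    refine ⟨2 * d - 2, c, hreg _, fun M hM => ?_⟩
    obtain ⟨i, h1, h2⟩ := hc M hM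
    refine ⟨i, ?_⟩
    rw [h2, Set.ncard_empty, h1]
    exact Nat.div_pos (by omega) (by omega)

end Pool.Agent.Results.MP_9beb5c_co.TwiceDegree
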